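import Pool.Agent.CYE.StmtsB

/-!
# Squad CYE, row SIE: the situation exists
-/

set_option autoImplicit false

open Polynomial

namespace Pool.Agent.CYE.H52

open Pool.Agent.CYD Pool.Agent.CYE

theorem sie : SieStmt := by
  classical
  intro p m g h F L _ _ a ha
  have hsq := F.sqf
  have hm0 : 0 < m := by
    have := F.hm
    omega
  have hcop : ∀ l ∈ m.primeFactors, Nat.Coprime l (m / l) := by
    intro l hl
    have hd := Nat.dvd_of_mem_primeFactors hl
    have h1 : l * (m / l) = m := Nat.mul_div_cancel' hd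
    have h2 : Squarefree (l * (m / l)) := by rw [h1]; exact hsq
    exact Nat.coprime_of_squarefree_mul h2
  have hex : ∀ l : {l // l ∈ m.primeFactors}, ∃ E : ℕ, E ≡ 1 [MOD l.1] ∧ E ≡ 0 [MOD m / l.1] :=
    fun l => ⟨(Nat.chineseRemainder (hcop l.1 l.2) 1 0).1, (Nat.chineseRemainder (hcop l.1 l.2) 1 0).2⟩
  choose E hE1 hE0 using hex
  have hprod : ∏ i : {l // l ∈ m.primeFactors}, i.1 = m := by
    rw [Finset.prod_coe_sort m.primeFactors (fun l => l)]
    exact Nat.prod_primeFactors_of_squarefree hsq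
  have hpri : ∀ l : {l // l ∈ m.primeFactors}, IsPrimitiveRoot (a ^ E l) l.1 := by
    intro l
    obtain ⟨t, ht⟩ := (Nat.modEq_zero_iff_dvd.mp (hE0 l))
    have hd := Nat.dvd_of_mem_primeFactors l.2
    have h1 : IsPrimitiveRoot (a ^ (m / l.1)) l.1 :=
      ha.pow hm0 (Nat.div_mul_cancel hd).symm
    rw [ht, pow_mul]
    apply h1.pow_of_coprime
    have hlp := Nat.prime_of_mem_primeFactors l.2
    rw [Nat.coprime_comm, Nat.Prime.coprime_iff_not_dvd hlp]
    intro hlt
    have h2 : E l ≡ 0 [MOD l.1] := by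
      rw [Nat.modEq_zero_iff_dvd, ht]
      exact Dvd.dvd.mul_left hlt _
    have h3 := (hE1 l).symm.trans h2
    rw [Nat.modEq_zero_iff_dvd] at h3
    exact hlp.one_lt.ne' (Nat.dvd_one.mp h3)
  have hsumE : ∑ l, E l ≡ 1 [MOD m] := by
    have h1 : ∀ l' ∈ (Finset.univ : Finset {l // l ∈ m.primeFactors}),
        ((l'.1 : ℕ) : ℤ) ∣ ((∑ l, E l : ℕ) : ℤ) - 1 := by
      intro l' _
      have h2 : ∑ l, E l ≡ 1 [MOD l'.1] := by
        rw [← Finset.add_sum_erase _ _ (Finset.mem_univ l')]
        have h3 : ∑ x ∈ Finset.univ.erase l', E x ≡ 0 [MOD l'.1] := by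
          rw [Nat.modEq_zero_iff_dvd]
          apply Finset.dvd_sum
          intro l hl
          have hne : l ≠ l' := (Finset.mem_erase.mp hl).1
          have h4 : m / l.1 ∣ E l := Nat.modEq_zero_iff_dvd.mp (hE0 l)
          refine dvd_trans ?_ h4
          have h5 : l.1 * (m / l.1) = m := Nat.mul_div_cancel' (Nat.dvd_of_mem_primeFactors l.2)
          have h6 : l'.1 ∣ l.1 * (m / l.1) := by
            rw [h5]
            exact Nat.dvd_of_mem_primeFactors l'.2
          have hp' := Nat.prime_of_mem_primeFactors l'.2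
          have hp := Nat.prime_of_mem_primeFactors l.2
          rcases (Nat.Prime.dvd_mul hp').mp h6 with h7 | h7
          · exact absurd (Subtype.ext ((Nat.prime_dvd_prime_iff_eq hp' hp).mp h7).symm) hne
          · exact h7
        exact (hE1 l').add h3
      have h8 := (Nat.modEq_iff_dvd.mp h2.symm)
      push_cast at h8 ⊢
      exact h8
    have h9 : (∏ l' : {l // l ∈ m.primeFactors}, ((l'.1 : ℕ) : ℤ)) ∣ ((∑ l, E l : ℕ) : ℤ) - 1 := by
      apply Finset.prod_dvd_of_coprime
      · intro x _ y _ hxy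
        have hx := Nat.prime_of_mem_primeFactors x.2
        have hy := Nat.prime_of_mem_primeFactors y.2
        exact Nat.isCoprime_iff_coprime.mpr
          ((Nat.coprime_primes hx hy).mpr fun h => hxy (Subtype.ext h))
      · exact h1
    have h10 : (∏ l' : {l // l ∈ m.primeFactors}, ((l'.1 : ℕ) : ℤ)) = (m : ℤ) := by
      rw [← Nat.cast_prod, hprod]
    rw [h10] at h9
    apply Nat.ModEq.symm
    rw [Nat.modEq_iff_dvd]
    push_cast at h9 ⊢
    exact h9
  refine ⟨fun l => a ^ E l, ⟨F, fun i => Nat.prime_of_mem_primeFactors i.2,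
    Subtype.val_injective, hprod, inferInstance, ha, hpri, ?_⟩⟩
  intro k
  unfold ev
  have h1 : ∀ l : {l // l ∈ m.primeFactors}, (a ^ E l) ^ ((k : ℕ) : ZMod l.1).val = (a ^ E l) ^ k := by
    intro l
    have h2 := pow_mod_orderOf (a ^ E l) k
    rw [← (hpri l).eq_orderOf] at h2
    rw [ZMod.val_natCast]
    exact h2
  rw [Finset.prod_congr rfl fun l _ => h1 l]
  have h3 : ∏ l : {l // l ∈ m.primeFactors}, (a ^ E l) ^ k = a ^ ((∑ l, E l) * k) := by
    rw [Finset.prod_pow, Finset.prod_pow_eq_pow_sum, ← pow_mul]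
  rw [h3]
  have h4 : k ≡ (∑ l, E l) * k [MOD m] := by
    have := hsumE.mul_right k
    rw [one_mul] at this
    exact this.symm
  rw [← pow_mod_orderOf a k, ← pow_mod_orderOf a ((∑ l, E l) * k), ← ha.eq_orderOf, h4]

end Pool.Agent.CYE.H52
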